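import Pool.Agent.Lib.HC.B.Wd

/-!
PROJECT HC, part B (helper14): the intersection with divisors.
-/

set_option autoImplicit false

noncomputable section

namespace HC

open Matrix

variable {T T' : AV} {m n : ℕ}

/-- The cap product with `p ∧ q`. -/
def cap1 (p q : T.V →ₗ[ℝ] ℂ) (c : Hlg T (m + 2)) : Hlg T m := (c.curryLeft p).curryLeft q

lemma cap1_apply (p q : T.V →ₗ[ℝ] ℂ) (c : Hlg T (m + 2)) (a : Fin m → (T.V →ₗ[ℝ] ℂ)) :
    cap1 p q c a = c (vecCons p (vecCons q a)) := rfl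

lemma cap_eq_sum {r : ℕ} (p q : Fin r → (T.V →ₗ[ℝ] ℂ)) (c : Hlg T (m + 2)) :
    cap p q c = ∑ j, cap1 (p j) (q j) c := rfl

lemma cap_apply {r : ℕ} (p q : Fin r → (T.V →ₗ[ℝ] ℂ)) (c : Hlg T (m + 2))
    (a : Fin m → (T.V →ₗ[ℝ] ℂ)) :
    cap p q c a = ∑ j, c (vecCons (p j) (vecCons (q j) a)) := by
  rw [cap_eq_sum, hlg_sum_apply]; rfl

/-- `cap1` as a trilinear map. -/
def capL (T : AV) (m : ℕ) : (T.V →ₗ[ℝ] ℂ) →ₗ[ℂ] (T.V →ₗ[ℝ] ℂ) →ₗ[ℂ] Hlg T (m + 2) →ₗ[ℂ] Hlg T m :=
  LinearMap.mk₂ ℂ (fun p q =>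
    { toFun := fun c => cap1 p q c
      map_add' := fun c d => by ext a; rfl
      map_smul' := fun x c => by ext a; rfl })
    (fun p p' q => by
      ext c a
      show c (vecCons (p + p') (vecCons q a)) =
        c (vecCons p (vecCons q a)) + c (vecCons p' (vecCons q a))
      exact MultilinearMap.cons_add c.toMultilinearMap (vecCons q a) p p')
    (fun x p q => by
      ext c a
      show c (vecCons (x • p) (vecCons q a)) = x • c (vecCons p (vecCons q a))
      exact MultilinearMap.cons_smul c.toMultilinearMap (vecCons q a) x p)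
    (fun p q q' => by
      ext c a
      show (c.curryLeft p) (vecCons (q + q') a) =
        (c.curryLeft p) (vecCons q a) + (c.curryLeft p) (vecCons q' a)
      exact MultilinearMap.cons_add (c.curryLeft p).toMultilinearMap a q q')
    (fun x p q => by
      ext c a
      show (c.curryLeft p) (vecCons (x • q) a) = x • (c.curryLeft p) (vecCons q a)
      exact MultilinearMap.cons_smul (c.curryLeft p).toMultilinearMap a x q)

lemma capL_apply (p q : T.V →ₗ[ℝ] ℂ) (c : Hlg T (m + 2)) : capL T m p q c = cap1 p q c := rfl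

lemma cap1_add_left (p p' q : T.V →ₗ[ℝ] ℂ) (c : Hlg T (m + 2)) :
    cap1 (p + p') q c = cap1 p q c + cap1 p' q c := by
  rw [← capL_apply, map_add]; rfl

lemma cap1_add_right (p q q' : T.V →ₗ[ℝ] ℂ) (c : Hlg T (m + 2)) :
    cap1 p (q + q') c = cap1 p q c + cap1 p q' c := by
  rw [← capL_apply, map_add]; rfl

lemma cap1_smul_left (x : ℂ) (p q : T.V →ₗ[ℝ] ℂ) (c : Hlg T (m + 2)) :
    cap1 (x • p) q c = x • cap1 p q c := by
  rw [← capL_apply, map_smul]; rfl

lemma cap1_smul_right (x : ℂ) (p q : T.V →ₗ[ℝ] ℂ) (c : Hlg T (m + 2)) :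
    cap1 p (x • q) c = x • cap1 p q c := by
  rw [← capL_apply, map_smul]; rfl

lemma cap1_add (p q : T.V →ₗ[ℝ] ℂ) (c d : Hlg T (m + 2)) :
    cap1 p q (c + d) = cap1 p q c + cap1 p q d := map_add (capL T m p q) c d

lemma cap1_smul (p q : T.V →ₗ[ℝ] ℂ) (x : ℂ) (c : Hlg T (m + 2)) :
    cap1 p q (x • c) = x • cap1 p q c := map_smul (capL T m p q) x c

lemma cap1_self (p : T.V →ₗ[ℝ] ℂ) (c : Hlg T (m + 2)) : cap1 p p c = 0 :=
  AlternatingMap.curryLeft_same c p

lemma cap1_swap (p q : T.V →ₗ[ℝ] ℂ) (c : Hlg T (m + 2)) : cap1 q p c = -cap1 p q c := by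
  have h := cap1_self (p + q) c
  rw [cap1_add_left, cap1_add_right, cap1_add_right, cap1_self, cap1_self, zero_add,
    add_zero] at h
  exact eq_neg_of_add_eq_zero_right h

/-- The projection formula. -/
lemma cap1_push (φ : T.V →ₗ[ℂ] T'.V) (p q : T'.V →ₗ[ℝ] ℂ) (c : Hlg T (m + 2)) :
    cap1 p q (push (T' := T') φ c) = push (T' := T') φ (cap1 (pull φ p) (pull φ q) c) := by
  ext a
  rw [cap1_apply, push_apply, push_apply, cap1_apply]
  congr 1
  funext i
  refine Fin.cases rfl (fun i => ?_) i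
  refine Fin.cases rfl (fun i => rfl) i

lemma cap_push {r : ℕ} (φ : T.V →ₗ[ℂ] T'.V) (p q : Fin r → (T'.V →ₗ[ℝ] ℂ))
    (c : Hlg T (m + 2)) : cap p q (push (T' := T') φ c) =
      push (T' := T') φ (cap (fun j => pull φ (p j)) (fun j => pull φ (q j)) c) := by
  rw [cap_eq_sum, cap_eq_sum, push_sum]
  exact Finset.sum_congr rfl fun j _ => cap1_push φ (p j) (q j) c

/-! ### `cap p q` depends only on the 2-form `∑ p_j ∧ q_j` -/

/-- The basis of `V →ₗ[ℝ] ℂ` dual to a real basis of `V`. -/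
def cfm {ι : Type} (b : Module.Basis ι ℝ T.V) (i : ι) : T.V →ₗ[ℝ] ℂ :=
  (b.coord i).smulRight (1 : ℂ)

lemma cfm_apply_basis {ι : Type} [DecidableEq ι] (b : Module.Basis ι ℝ T.V) (i k : ι) :
    cfm b i (b k) = if k = i then 1 else 0 := by
  rw [cfm, LinearMap.smulRight_apply, Module.Basis.coord_apply, Module.Basis.repr_self,
    Finsupp.single_apply]
  by_cases h : k = i <;> simp [h]

lemma expand_form {ι : Type} [Fintype ι] (b : Module.Basis ι ℝ T.V) (p : T.V →ₗ[ℝ] ℂ) :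
    p = ∑ i, p (b i) • cfm b i := by
  classical
  refine b.ext fun k => ?_
  rw [LinearMap.sum_apply, Finset.sum_eq_single k]
  · rw [LinearMap.smul_apply, cfm_apply_basis, if_pos rfl, smul_eq_mul, mul_one]
  · intro i _ hi
    rw [LinearMap.smul_apply, cfm_apply_basis, if_neg hi.symm, smul_zero]
  · intro h; exact absurd (Finset.mem_univ k) h

lemma cap1_expand {ι : Type} [Fintype ι] (b : Module.Basis ι ℝ T.V) (p q : T.V →ₗ[ℝ] ℂ)
    (c : Hlg T (m + 2)) : cap1 p q c = ∑ i, ∑ k, (p (b i) * q (b k)) •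
      cap1 (cfm b i) (cfm b k) c := by
  have h1 : ∀ p' : T.V →ₗ[ℝ] ℂ, cap1 p' q c = ∑ k, q (b k) • cap1 p' (cfm b k) c := by
    intro p'
    conv_lhs => rw [expand_form b q]
    rw [← capL_apply, map_sum, LinearMap.sum_apply]
    refine Finset.sum_congr rfl fun k _ => ?_
    rw [map_smul, LinearMap.smul_apply, capL_apply]
  conv_lhs => rw [expand_form b p]
  rw [← capL_apply, map_sum, LinearMap.sum_apply, LinearMap.sum_apply]
  refine Finset.sum_congr rfl fun i _ => ?_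
  rw [map_smul, LinearMap.smul_apply, LinearMap.smul_apply, capL_apply, h1, Finset.smul_sum]
  refine Finset.sum_congr rfl fun k _ => ?_
  rw [smul_smul]

lemma two_cap1 {ι : Type} [Fintype ι] (b : Module.Basis ι ℝ T.V) (p q : T.V →ₗ[ℝ] ℂ)
    (c : Hlg T (m + 2)) : (2 : ℂ) • cap1 p q c = ∑ i, ∑ k, (p (b i) * q (b k) - p (b k) * q (b i)) •
      cap1 (cfm b i) (cfm b k) c := by
  have h1 : cap1 p q c = ∑ i, ∑ k, (-(p (b k) * q (b i))) •
      cap1 (cfm b i) (cfm b k) c := by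
    rw [cap1_expand b, Finset.sum_comm]
    refine Finset.sum_congr rfl fun i _ => Finset.sum_congr rfl fun k _ => ?_
    rw [cap1_swap (cfm b i) (cfm b k), smul_neg,
      neg_smul]
  rw [two_smul]
  nth_rewrite 1 [cap1_expand b p q c]
  rw [h1, ← Finset.sum_add_distrib]
  refine Finset.sum_congr rfl fun i _ => ?_
  rw [← Finset.sum_add_distrib]
  refine Finset.sum_congr rfl fun k _ => ?_
  rw [← add_smul, sub_eq_add_neg]

/-- `cap p q` depends only on the 2-form `∑ p_j ∧ q_j`. -/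
theorem cap_form {r s : ℕ} {p q : Fin r → (T.V →ₗ[ℝ] ℂ)} {p' q' : Fin s → (T.V →ₗ[ℝ] ℂ)}
    (h : ∀ u v : T.V, ∑ j, (p j u * q j v - p j v * q j u) =
      ∑ j, (p' j u * q' j v - p' j v * q' j u)) (c : Hlg T (m + 2)) :
    cap p q c = cap p' q' c := by
  have key : ∀ (t : ℕ) (x y : Fin t → (T.V →ₗ[ℝ] ℂ)), (2 : ℂ) • cap x y c =
      ∑ i, ∑ k, (∑ j, (x j (Module.finBasis ℝ T.V i) * y j (Module.finBasis ℝ T.V k) -
        x j (Module.finBasis ℝ T.V k) * y j (Module.finBasis ℝ T.V i))) •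
        cap1 (cfm (Module.finBasis ℝ T.V) i)
          (cfm (Module.finBasis ℝ T.V) k) c := by
    intro t x y
    rw [cap_eq_sum, Finset.smul_sum, Finset.sum_congr rfl fun j _ =>
      two_cap1 (Module.finBasis ℝ T.V) (x j) (y j) c, Finset.sum_comm]
    refine Finset.sum_congr rfl fun i _ => ?_
    rw [Finset.sum_comm]
    refine Finset.sum_congr rfl fun k _ => ?_
    rw [Finset.sum_smul]
  have h2 : (2 : ℂ) • cap p q c = (2 : ℂ) • cap p' q' c := by
    rw [key, key]
    refine Finset.sum_congr rfl fun i _ => Finset.sum_congr rfl fun k _ => ?_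
    rw [h]
  exact smul_right_injective _ (two_ne_zero (α := ℂ)) h2

/-! ### Combinations of divisors -/

/-- Capping with `p_{j0} ∧ q_{j0}`, if it is a `ℂ`-linear combination of divisors. -/
theorem Alg.cap1_of_comb {r s : ℕ} (p q : Fin r → (T.V →ₗ[ℝ] ℂ)) (x : Fin s → Fin r → ℂ)
    (h : ∀ i, IsDiv T (fun j => x i j • p j) q) (y : Fin s → ℂ) (j0 : Fin r)
    (hy : ∀ j, ∑ i, y i * x i j = if j = j0 then 1 else 0) {c : Hlg T (m + 2)}
    (hc : Alg T (m + 2) c) : Alg T m (cap1 (p j0) (q j0) c) := by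
  have h1 : cap1 (p j0) (q j0) c = ∑ i, y i • HC.cap (fun j => x i j • p j) q c := by
    have h2 : ∀ i, y i • HC.cap (fun j => x i j • p j) q c =
        ∑ j, (y i * x i j) • cap1 (p j) (q j) c := by
      intro i
      rw [cap_eq_sum, Finset.smul_sum]
      refine Finset.sum_congr rfl fun j _ => ?_
      rw [cap1_smul_left, smul_smul]
    rw [Finset.sum_congr rfl fun i _ => h2 i, Finset.sum_comm, Finset.sum_eq_single j0]
    · rw [← Finset.sum_smul, hy, if_pos rfl, one_smul]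
    · intro j _ hj
      rw [← Finset.sum_smul, hy, if_neg hj, zero_smul]
    · intro h; exact absurd (Finset.mem_univ j0) h
  rw [h1]
  exact Alg.sum fun i _ => (hc.cap _ _ (h i)).smul _

/-- Capping with a 2-form which is a `ℂ`-linear combination of divisors. -/
theorem Alg.cap_of_span {r s : ℕ} (p q : Fin r → (T.V →ₗ[ℝ] ℂ)) (k : Fin s → ℕ)
    (p' q' : ∀ i, Fin (k i) → (T.V →ₗ[ℝ] ℂ)) (h : ∀ i, IsDiv T (p' i) (q' i)) (y : Fin s → ℂ)
    (hy : ∀ u v : T.V, ∑ j, (p j u * q j v - p j v * q j u) =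
      ∑ i, y i * ∑ j, (p' i j u * q' i j v - p' i j v * q' i j u)) {c : Hlg T (m + 2)}
    (hc : Alg T (m + 2) c) : Alg T m (HC.cap p q c) := by
  let b := Module.finBasis ℝ T.V
  have key : ∀ (t : ℕ) (x y : Fin t → (T.V →ₗ[ℝ] ℂ)), (2 : ℂ) • HC.cap x y c =
      ∑ i, ∑ k, (∑ j, (x j (b i) * y j (b k) - x j (b k) * y j (b i))) •
        cap1 (cfm b i) (cfm b k) c := by
    intro t x y
    rw [cap_eq_sum, Finset.smul_sum, Finset.sum_congr rfl fun j _ =>
      two_cap1 b (x j) (y j) c, Finset.sum_comm]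
    refine Finset.sum_congr rfl fun i _ => ?_
    rw [Finset.sum_comm]
    refine Finset.sum_congr rfl fun k _ => ?_
    rw [Finset.sum_smul]
  have h2 : (2 : ℂ) • HC.cap p q c = ∑ i, y i • (2 : ℂ) • HC.cap (p' i) (q' i) c := by
    have h3 : ∀ i : Fin s, y i • (2 : ℂ) • HC.cap (p' i) (q' i) c = ∑ a, ∑ l,
        (y i * ∑ j, (p' i j (b a) * q' i j (b l) - p' i j (b l) * q' i j (b a))) •
        cap1 (cfm b a) (cfm b l) c := by
      intro i
      rw [key, Finset.smul_sum]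
      refine Finset.sum_congr rfl fun a _ => ?_
      rw [Finset.smul_sum]
      refine Finset.sum_congr rfl fun l _ => ?_
      rw [smul_smul]
    rw [key, Finset.sum_congr rfl fun i _ => h3 i]
    refine Eq.trans ?_ Finset.sum_comm
    refine Finset.sum_congr rfl fun a _ => ?_
    rw [Finset.sum_comm]
    refine Finset.sum_congr rfl fun l _ => ?_
    rw [hy, Finset.sum_smul]
  refine Alg.of_smul (two_ne_zero (α := ℂ)) ?_
  rw [h2]
  exact Alg.sum fun i _ => ((hc.cap _ _ (h i)).smul _).smul _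

/-! ### Wedge products -/

lemma cap1_wd (f0 f1 : Module.Dual ℂ (T.V →ₗ[ℝ] ℂ)) (f : Fin m → Module.Dual ℂ (T.V →ₗ[ℝ] ℂ))
    (p q : T.V →ₗ[ℝ] ℂ) (hp : ∀ i, f i p = 0) (hq : ∀ i, f i q = 0) :
    cap1 p q (wd (vecCons f0 (vecCons f1 f))) = (f0 p * f1 q - f1 p * f0 q) • wd f := by
  have h1 : (wd (vecCons f0 (vecCons f1 f))).curryLeft p =
      f0 p • wd (vecCons f1 f) - f1 p • wd (vecCons f0 f) := by
    rw [wd_curryLeft, Fin.sum_univ_succ, Fin.sum_univ_succ, Finset.sum_eq_zero, add_zero]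
    · have e1 : (fun j => vecCons f0 (vecCons f1 f) ((0 : Fin (m + 2)).succAbove j)) =
          vecCons f1 f := by
        funext j; simp
      have e2 : (fun j => vecCons f0 (vecCons f1 f)
          ((Fin.succ 0 : Fin (m + 2)).succAbove j)) = vecCons f0 f := by
        funext j
        refine Fin.cases ?_ (fun j => ?_) j
        · simp
        · simp
      rw [e1, e2]
      simp [sub_eq_add_neg]
    · intro i _
      have : vecCons f0 (vecCons f1 f) (Fin.succ (Fin.succ i)) = f i := by simp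
      rw [this, hp, mul_zero, zero_smul]
  rw [cap1, h1]
  have h2 : (f0 p • wd (vecCons f1 f) - f1 p • wd (vecCons f0 f)).curryLeft q =
      f0 p • (wd (vecCons f1 f)).curryLeft q - f1 p • (wd (vecCons f0 f)).curryLeft q := by
    ext a; rfl
  rw [h2, wd_curryLeft_cons _ _ _ hq, wd_curryLeft_cons _ _ _ hq, smul_smul, smul_smul, sub_smul]

end HC
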