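import Pool.Agent.Lib.HC.Defs

/-!
PROJECT HC, part B (helper14): linear combinations of algebraic classes, images under
homomorphisms and under rational multiples of homomorphisms.
-/

set_option autoImplicit false

noncomputable section

namespace HC

/-! ### Pull back of 1-forms -/

section pull

variable {V V' V'' : Type} [AddCommGroup V] [Module ℂ V] [AddCommGroup V'] [Module ℂ V']
  [AddCommGroup V''] [Module ℂ V'']

lemma pull_apply (φ : V →ₗ[ℂ] V') (a : V' →ₗ[ℝ] ℂ) (v : V) : pull φ a v = a (φ v) := rfl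

lemma pull_id : pull (LinearMap.id : V →ₗ[ℂ] V) = LinearMap.id := rfl

lemma pull_comp (φ : V →ₗ[ℂ] V') (ψ : V' →ₗ[ℂ] V'') :
    pull (ψ ∘ₗ φ) = pull φ ∘ₗ pull ψ := rfl

lemma pull_pull (φ : V →ₗ[ℂ] V') (ψ : V' →ₗ[ℂ] V'') (a : V'' →ₗ[ℝ] ℂ) :
    pull φ (pull ψ a) = pull (ψ ∘ₗ φ) a := rfl

lemma pull_rsmul (r : ℝ) (φ : V →ₗ[ℂ] V') : pull ((r : ℂ) • φ) = (r : ℂ) • pull φ := by
  refine LinearMap.ext fun a => LinearMap.ext fun v => ?_
  show a ((r : ℂ) • φ v) = (r : ℂ) • a (φ v)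
  rw [Complex.coe_smul, Complex.coe_smul, map_smul]

end pull

/-! ### Images -/

section push

variable {T T' T'' : AV} {m : ℕ}

lemma push_apply (φ : T.V →ₗ[ℂ] T'.V) (c : Hlg T m) (a : Fin m → (T'.V →ₗ[ℝ] ℂ)) :
    push (T' := T') φ c a = c fun i => pull φ (a i) := rfl

lemma push_add (φ : T.V →ₗ[ℂ] T'.V) (c d : Hlg T m) :
    push (T' := T') φ (c + d) = push φ c + push φ d := rfl

lemma push_smul (φ : T.V →ₗ[ℂ] T'.V) (x : ℂ) (c : Hlg T m) :
    push (T' := T') φ (x • c) = x • push φ c := rfl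

lemma push_zero (φ : T.V →ₗ[ℂ] T'.V) : push (T' := T') φ (0 : Hlg T m) = 0 := rfl

/-- The image under a homomorphism, as a linear map. -/
def pushL (φ : T.V →ₗ[ℂ] T'.V) : Hlg T m →ₗ[ℂ] Hlg T' m where
  toFun := push φ
  map_add' := push_add φ
  map_smul' := push_smul φ

lemma pushL_apply (φ : T.V →ₗ[ℂ] T'.V) (c : Hlg T m) :
    pushL (T' := T') φ c = push φ c := rfl

lemma push_sum {ι : Type} (s : Finset ι) (φ : T.V →ₗ[ℂ] T'.V) (c : ι → Hlg T m) :
    push (T' := T') φ (∑ i ∈ s, c i) = ∑ i ∈ s, push φ (c i) :=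
  map_sum (pushL (T' := T') φ) c s

lemma push_neg (φ : T.V →ₗ[ℂ] T'.V) (c : Hlg T m) :
    push (T' := T') φ (-c) = -push φ c := rfl

lemma push_sub (φ : T.V →ₗ[ℂ] T'.V) (c d : Hlg T m) :
    push (T' := T') φ (c - d) = push φ c - push φ d := rfl

lemma push_id (c : Hlg T m) : push (LinearMap.id : T.V →ₗ[ℂ] T.V) c = c := rfl

lemma push_push (φ : T.V →ₗ[ℂ] T'.V) (ψ : T'.V →ₗ[ℂ] T''.V) (c : Hlg T m) :
    push (T' := T'') ψ (push (T' := T') φ c) = push (T' := T'') (ψ ∘ₗ φ) c := rfl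

lemma push_rsmul (r : ℝ) (φ : T.V →ₗ[ℂ] T'.V) (c : Hlg T m) :
    push (T' := T') ((r : ℂ) • φ) c = (r : ℂ) ^ m • push φ c := by
  ext a
  rw [push_apply, AlternatingMap.smul_apply, push_apply]
  have h : (fun i => pull ((r : ℂ) • φ) (a i)) = fun i => (r : ℂ) • pull φ (a i) := by
    funext i; rw [pull_rsmul]; rfl
  rw [h]
  have h2 := c.toMultilinearMap.map_smul_univ (fun _ => (r : ℂ)) fun i => pull φ (a i)
  rw [Finset.prod_const, Finset.card_univ, Fintype.card_fin] at h2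
  exact h2

end push

/-! ### Linear combinations of algebraic classes -/

/-- The space of algebraic classes. -/
def algSub (T : AV) (m : ℕ) : Submodule ℂ (Hlg T m) where
  carrier := {c | Alg T m c}
  zero_mem' := Alg.zero
  add_mem' hc hd := Alg.add hc hd
  smul_mem' x _ hc := Alg.smul x hc

section alg

variable {T T' : AV} {m : ℕ}

lemma mem_algSub {c : Hlg T m} : c ∈ algSub T m ↔ Alg T m c := Iff.rfl

lemma Alg.sum {ι : Type} {s : Finset ι} {c : ι → Hlg T m} (h : ∀ i ∈ s, Alg T m (c i)) :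
    Alg T m (∑ i ∈ s, c i) := (algSub T m).sum_mem h

lemma Alg.neg {c : Hlg T m} (h : Alg T m c) : Alg T m (-c) := (algSub T m).neg_mem h

lemma Alg.sub {c d : Hlg T m} (hc : Alg T m c) (hd : Alg T m d) : Alg T m (c - d) :=
  (algSub T m).sub_mem hc hd

lemma Alg.of_smul {x : ℂ} (hx : x ≠ 0) {c : Hlg T m} (h : Alg T m (x • c)) : Alg T m c := by
  have := Alg.smul x⁻¹ h
  rwa [smul_smul, inv_mul_cancel₀ hx, one_smul] at this

lemma Alg.of_neg {c : Hlg T m} (h : Alg T m (-c)) : Alg T m c := by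
  have := h.neg
  rwa [neg_neg] at this

lemma Alg.smul_iff {x : ℂ} (hx : x ≠ 0) {c : Hlg T m} : Alg T m (x • c) ↔ Alg T m c :=
  ⟨Alg.of_smul hx, Alg.smul x⟩

/-- `φ` is a rational multiple of a homomorphism `V / L → V' / L'`. -/
def IsRat (T T' : AV) (φ : T.V →ₗ[ℂ] T'.V) : Prop :=
  ∃ N : ℤ, N ≠ 0 ∧ ∀ x ∈ T.L, (N : ℂ) • φ x ∈ T'.L

lemma IsRat.of_maps {φ : T.V →ₗ[ℂ] T'.V} (h : ∀ x ∈ T.L, φ x ∈ T'.L) : IsRat T T' φ :=
  ⟨1, one_ne_zero, fun x hx => by simpa using h x hx⟩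

/-- The image of an algebraic class under a rational multiple of a homomorphism. -/
theorem Alg.push_rat {φ : T.V →ₗ[ℂ] T'.V} (hφ : IsRat T T' φ) {c : Hlg T m}
    (hc : Alg T m c) : Alg T' m (HC.push φ c) := by
  obtain ⟨N, hN, h⟩ := hφ
  have h1 : Alg T' m (HC.push (((N : ℝ) : ℂ) • φ) c) :=
    Alg.push _ (fun x hx => by simpa using h x hx) hc
  rw [push_rsmul] at h1
  exact Alg.of_smul (pow_ne_zero _ (by exact_mod_cast hN)) h1

lemma IsRat.comp {T'' : AV} {φ : T.V →ₗ[ℂ] T'.V} {ψ : T'.V →ₗ[ℂ] T''.V}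
    (hψ : IsRat T' T'' ψ) (hφ : IsRat T T' φ) : IsRat T T'' (ψ ∘ₗ φ) := by
  obtain ⟨N, hN, h⟩ := hφ
  obtain ⟨M, hM, h'⟩ := hψ
  refine ⟨M * N, mul_ne_zero hM hN, fun x hx => ?_⟩
  have := h' _ (h x hx)
  rw [map_smul, smul_smul] at this
  simpa using this

lemma intCast_smul_mem (T : AV) {x : T.V} (hx : x ∈ T.L) (n : ℤ) : (n : ℂ) • x ∈ T.L := by
  have := T.L.smul_mem n hx
  rwa [← Int.cast_smul_eq_zsmul ℂ] at this

lemma IsRat.add {φ ψ : T.V →ₗ[ℂ] T'.V} (hφ : IsRat T T' φ) (hψ : IsRat T T' ψ) :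
    IsRat T T' (φ + ψ) := by
  obtain ⟨N, hN, h⟩ := hφ
  obtain ⟨M, hM, h'⟩ := hψ
  refine ⟨M * N, mul_ne_zero hM hN, fun x hx => ?_⟩
  have h1 := intCast_smul_mem T' (h x hx) M
  have h2 := intCast_smul_mem T' (h' x hx) N
  have h3 := T'.L.add_mem h1 h2
  rw [smul_smul, smul_smul, mul_comm (N : ℂ) (M : ℂ), ← smul_add] at h3
  simpa using h3

lemma IsRat.zero : IsRat T T' 0 := IsRat.of_maps fun x _ => by simp

lemma IsRat.sum {ι : Type} {s : Finset ι} {φ : ι → (T.V →ₗ[ℂ] T'.V)}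
    (h : ∀ i ∈ s, IsRat T T' (φ i)) : IsRat T T' (∑ i ∈ s, φ i) := by
  classical
  induction s using Finset.induction_on with
  | empty => simpa using IsRat.zero
  | insert a s ha ih =>
    rw [Finset.sum_insert ha]
    exact (h a (Finset.mem_insert_self a s)).add
      (ih fun i hi => h i (Finset.mem_insert_of_mem hi))

lemma IsRat.rat_smul {φ : T.V →ₗ[ℂ] T'.V} (hφ : IsRat T T' φ) (q : ℚ) :
    IsRat T T' ((q : ℂ) • φ) := by
  obtain ⟨N, hN, h⟩ := hφ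
  refine ⟨q.den * N, mul_ne_zero (by exact_mod_cast q.den_nz) hN, fun x hx => ?_⟩
  have h1 := intCast_smul_mem T' (h x hx) q.num
  have h2 : ((q.den * N : ℤ) : ℂ) • ((q : ℂ) • φ) x = (q.num : ℂ) • (N : ℂ) • φ x := by
    rw [LinearMap.smul_apply, smul_smul, smul_smul]
    congr 1
    push_cast
    have : ((q.den : ℂ)) * (q : ℂ) = q.num := by
      have h3 := Rat.den_mul_eq_num q
      exact_mod_cast h3
    calc (q.den : ℂ) * N * q = (q.den * q) * N := by ring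
      _ = _ := by rw [this]
  rw [h2]; exact h1

end alg

/-! ### Hodge classes -/

section hodge

variable {T T' : AV} {m : ℕ}

lemma IsHodge.push {φ : T.V →ₗ[ℂ] T'.V} (hφ : ∀ x ∈ T.L, φ x ∈ T'.L) {c : Hlg T m}
    (hc : IsHodge T m c) : IsHodge T' m (HC.push φ c) := by
  refine ⟨fun a ha => ?_, fun u hu => ?_⟩
  · rw [push_apply]
    exact hc.1 _ fun i v hv => ha i _ (hφ v hv)
  · rw [push_push]
    conv_rhs => rw [← hc.2 u hu, push_push]
    congr 1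
    ext v
    simp

lemma IsHodge.rat_smul {c : Hlg T m} (hc : IsHodge T m c) (q : ℚ) :
    IsHodge T m ((q : ℂ) • c) := by
  refine ⟨fun a ha => ?_, fun u hu => ?_⟩
  · obtain ⟨x, hx⟩ := hc.1 a ha
    exact ⟨q * x, by rw [AlternatingMap.smul_apply, hx]; simp⟩
  · rw [push_smul, hc.2 u hu]

lemma IsHodge.add {c d : Hlg T m} (hc : IsHodge T m c) (hd : IsHodge T m d) :
    IsHodge T m (c + d) := by
  refine ⟨fun a ha => ?_, fun u hu => ?_⟩
  · obtain ⟨x, hx⟩ := hc.1 a ha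
    obtain ⟨y, hy⟩ := hd.1 a ha
    exact ⟨x + y, by rw [AlternatingMap.add_apply, hx, hy]; simp⟩
  · rw [push_add, hc.2 u hu, hd.2 u hu]

/-- The image of a Hodge class under a rational multiple of a homomorphism. -/
theorem IsHodge.push_rat {φ : T.V →ₗ[ℂ] T'.V} (hφ : IsRat T T' φ) {c : Hlg T m}
    (hc : IsHodge T m c) : IsHodge T' m (HC.push φ c) := by
  obtain ⟨N, hN, h⟩ := hφ
  have h1 : IsHodge T' m (HC.push (((N : ℝ) : ℂ) • φ) c) :=
    IsHodge.push (fun x hx => by simpa using h x hx) hc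
  have h2 := h1.rat_smul (((N : ℚ) ^ m)⁻¹)
  rw [push_rsmul, smul_smul] at h2
  have h3 : ((((N : ℚ) ^ m)⁻¹ : ℚ) : ℂ) * ((N : ℝ) : ℂ) ^ m = 1 := by
    push_cast
    exact inv_mul_cancel₀ (pow_ne_zero _ (by exact_mod_cast hN))
  rwa [h3, one_smul] at h2

end hodge

end HC
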