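import Pool.Agent.Lib.HC.B.Cap

/-!
PROJECT HC, part B (helper14): algebraic classes which are wedge products of lists of linear
forms.
-/

set_option autoImplicit false

noncomputable section

namespace HC

open Matrix

variable {T T' : AV} {m n : ℕ}

/-- Change of the name of the degree. -/
lemma alg_wd_cast {f : Fin m → Module.Dual ℂ (T.V →ₗ[ℝ] ℂ)}
    {g : Fin n → Module.Dual ℂ (T.V →ₗ[ℝ] ℂ)} (hmn : m = n)
    (h : ∀ i : Fin m, f i = g (Fin.cast hmn i)) : Alg T m (wd f) ↔ Alg T n (wd g) := by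
  subst hmn
  have : f = g := funext fun i => h i
  rw [this]

/-- Permutation of the factors. -/
lemma alg_wd_equiv (f : Fin m → Module.Dual ℂ (T.V →ₗ[ℝ] ℂ)) (e : Fin n ≃ Fin m) :
    Alg T n (wd fun i => f (e i)) ↔ Alg T m (wd f) := by
  have hmn : n = m := by simpa using Fintype.card_congr e
  subst hmn
  rw [wd_perm f e]
  rcases Int.units_eq_one_or (Equiv.Perm.sign e) with h | h <;> rw [h]
  · rw [one_smul]
  · rw [Units.neg_smul, one_smul]
    exact ⟨Alg.of_neg, Alg.neg⟩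

/-- The wedge product of the list `F` of linear forms is algebraic. -/
def AlgL (T : AV) (F : List (Module.Dual ℂ (T.V →ₗ[ℝ] ℂ))) : Prop :=
  Alg T F.length (wd fun i => F.get i)

lemma algL_iff {F : List (Module.Dual ℂ (T.V →ₗ[ℝ] ℂ))} (hm : F.length = m)
    {f : Fin m → Module.Dual ℂ (T.V →ₗ[ℝ] ℂ)} (h : ∀ i : Fin F.length, F.get i = f (Fin.cast hm i)) :
    AlgL T F ↔ Alg T m (wd f) := alg_wd_cast hm h

lemma algL_ofFn (f : Fin m → Module.Dual ℂ (T.V →ₗ[ℝ] ℂ)) :
    AlgL T (List.ofFn f) ↔ Alg T m (wd f) :=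
  algL_iff (List.length_ofFn) fun i => by simp; rfl

lemma perm_equiv {α : Type} {F G : List α} (h : F.Perm G) :
    ∃ e : Fin F.length ≃ Fin G.length, ∀ i, F.get i = G.get (e i) := by
  induction h with
  | nil => exact ⟨Equiv.refl _, fun i => rfl⟩
  | @cons x l1 l2 _ ih =>
    obtain ⟨e, he⟩ := ih
    refine ⟨(finSuccEquiv l1.length).trans
      ((Equiv.optionCongr e).trans (finSuccEquiv l2.length).symm), ?_⟩
    intro i
    refine Fin.cases ?_ (fun i => ?_) i
    · simp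
    · simpa using he i
  | swap x y l =>
    refine ⟨Equiv.swap (0 : Fin (l.length + 2)) 1, ?_⟩
    intro i
    by_cases h0 : i = (0 : Fin (l.length + 2))
    · subst h0
      rw [Equiv.swap_apply_left]
      rfl
    · by_cases h1 : i = (1 : Fin (l.length + 2))
      · subst h1
        rw [Equiv.swap_apply_right]
        rfl
      · rw [Equiv.swap_apply_of_ne_of_ne h0 h1]
        obtain ⟨i, hi⟩ := i
        match i, hi with
        | 0, hi => exact absurd rfl h0
        | 1, hi => exact absurd rfl h1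
        | (k + 2), hi => rfl
  | trans _ _ ih1 ih2 =>
    obtain ⟨e1, h1⟩ := ih1
    obtain ⟨e2, h2⟩ := ih2
    exact ⟨e1.trans e2, fun i => by rw [h1, h2]; rfl⟩

/-- The order of the list does not matter. -/
lemma AlgL.perm {F G : List (Module.Dual ℂ (T.V →ₗ[ℝ] ℂ))} (h : F.Perm G) :
    AlgL T F ↔ AlgL T G := by
  obtain ⟨e, he⟩ := perm_equiv h
  have h1 : (fun i => F.get i) = fun i => G.get (e i) := funext he
  rw [AlgL, h1]
  exact alg_wd_equiv (fun i => G.get i) e

lemma algL_of_eq {F : List (Module.Dual ℂ (T.V →ₗ[ℝ] ℂ))}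
    {f : Fin m → Module.Dual ℂ (T.V →ₗ[ℝ] ℂ)} (h : F = List.ofFn f) :
    AlgL T F ↔ Alg T m (wd f) := by
  rw [h, algL_ofFn]

/-- The Pontryagin product. -/
lemma AlgL.append {F G : List (Module.Dual ℂ (T.V →ₗ[ℝ] ℂ))} (hF : AlgL T F) (hG : AlgL T G) :
    AlgL T (F ++ G) := by
  have h := Alg.pont hF hG
  rw [pont_wd] at h
  refine (algL_of_eq ?_).2 h
  rw [List.ofFn_fin_append]
  congr 1
  · exact (List.ofFn_get F).symm
  · exact (List.ofFn_get G).symm

/-- The image under a rational multiple of a homomorphism. -/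
lemma AlgL.map {φ : T.V →ₗ[ℂ] T'.V} (hφ : IsRat T T' φ)
    {F : List (Module.Dual ℂ (T.V →ₗ[ℝ] ℂ))} (hF : AlgL T F) :
    AlgL T' (F.map fun f => f ∘ₗ pull φ) := by
  have h := Alg.push_rat hφ hF
  rw [push_wd] at h
  refine (alg_wd_cast (List.length_map (as := F) (fun f => f ∘ₗ pull φ)) fun i => ?_).2 h
  simp

/-- Removal of a pair. -/
lemma AlgL.cap {f0 f1 : Module.Dual ℂ (T.V →ₗ[ℝ] ℂ)}
    {F : List (Module.Dual ℂ (T.V →ₗ[ℝ] ℂ))} (hF : AlgL T (f0 :: f1 :: F))
    {p q : T.V →ₗ[ℝ] ℂ}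
    (hcap : ∀ c : Hlg T (F.length + 2), Alg T (F.length + 2) c → Alg T F.length (cap1 p q c))
    (h0 : f0 p * f1 q - f1 p * f0 q ≠ 0) (hp : ∀ f ∈ F, f p = 0) (hq : ∀ f ∈ F, f q = 0) :
    AlgL T F := by
  have h1 : Alg T (F.length + 2) (wd (vecCons f0 (vecCons f1 fun i => F.get i))) := by
    refine (alg_wd_cast rfl fun i => ?_).1 hF
    refine Fin.cases rfl (fun i => ?_) i
    refine Fin.cases rfl (fun i => rfl) i
  have h2 := hcap _ h1
  rw [cap1_wd _ _ _ _ _ (fun i => hp _ (List.get_mem F i)) (fun i => hq _ (List.get_mem F i))] at h2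
  exact Alg.of_smul h0 h2

/-- A wedge product with a repeated factor. -/
lemma AlgL.of_not_nodup {F : List (Module.Dual ℂ (T.V →ₗ[ℝ] ℂ))} (h : ¬ F.Nodup) :
    AlgL T F := by
  rw [List.nodup_iff_injective_get] at h
  simp only [Function.Injective, not_forall] at h
  obtain ⟨i, j, hij, hne⟩ := h
  rw [AlgL, wd_zero_of_eq (fun i => F.get i) hij hne]
  exact Alg.zero

end HC
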