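import Pool.Agent.Lib.HC.B.Lst

/-!
PROJECT HC, part B (helper14): classes of degree 0 are algebraic (the class of a point).
-/

set_option autoImplicit false

open MeasureTheory

noncomputable section

namespace HC

open Matrix

/-- The point. -/
def ptMan : CMan 0 where
  D := Set.univ
  Γ := Unit
  act _ z := z
  isOpen := isOpen_univ
  maps _ _ _ := Set.mem_univ _
  one _ _ := rfl
  mul _ _ _ _ := rfl
  hol _ := differentiableOn_id
  free _ _ _ _ := rfl
  disc _ _ _ := Set.toFinite _
  cpt := ⟨Set.univ, Set.Subset.rfl, isCompact_univ, fun _ _ => ⟨(), Set.mem_univ _⟩⟩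

lemma ptMan_weight : IsWeight ptMan fun _ => 1 where
  cont := continuous_const
  nonneg _ := zero_le_one
  cpt := HasCompactSupport.of_compactSpace _
  supp := Set.subset_univ _
  sum z _ := by
    show HasSum (fun _ : Unit => (1 : ℝ)) 1
    exact hasSum_unique _

/-- The class of a point. -/
theorem alg_zero_deg (T : AV) (c : Hlg T 0) : Alg T 0 c := by
  have h1 : Alg T (2 * 0) (wd (T := T) (Fin.elim0 : Fin (2 * 0) → Module.Dual ℂ (T.V →ₗ[ℝ] ℂ))) := by
    refine Alg.geo ptMan (fun _ => 0) ⟨differentiableOn_const _, fun _ _ _ => ?_⟩ (fun _ => 1)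
      ptMan_weight _ fun a => ?_
    · simp
    · rw [wd_apply]
      have h0 : (volume : Measure (Fin 0 → ℂ)).real Set.univ = 1 := by
        rw [Measure.real, volume_pi, Measure.pi_empty_univ]; rfl
      simp [Matrix.det_isEmpty, h0]
  have h2 : c = c ![] • wd (T := T) (Fin.elim0 : Fin 0 → Module.Dual ℂ (T.V →ₗ[ℝ] ℂ)) := by
    ext a
    rw [AlternatingMap.smul_apply, wd_apply, Matrix.det_isEmpty, smul_eq_mul, mul_one]
    congr 1
    exact Subsingleton.elim _ _
  rw [h2]
  exact Alg.smul _ h1

end HC
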