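import Pool.Agent.Lib.HC.Iface
import Pool.Agent.Lib.HC.B.Pt

/-!
PROJECT HC, part B (helper14): the statements `S_Wdg`, `S_Exp`, `S_PushH` of the interface.
-/

set_option autoImplicit false

noncomputable section

namespace HC

theorem wdg_eq_wd {T : AV} {m : ℕ} (x : Fin m → ((T.V →ₗ[ℝ] ℂ) →ₗ[ℂ] ℂ)) : wdg x = wd x :=
  (wd_eq_alt x).symm

theorem tWdg : S_Wdg := by
  refine ⟨fun T m x a => ?_, fun T T' φ m x => ?_, fun T m n x y => ?_, fun T m x0 x z h0 h => ?_,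
    fun T m x σ => ?_⟩
  · rw [wdg_eq_wd, wd_apply']
  · rw [wdg_eq_wd, wdg_eq_wd, push_wd]
  · rw [wdg_eq_wd, wdg_eq_wd, wdg_eq_wd, pont_wd]
  · rw [wdg_eq_wd, wdg_eq_wd]
    have h1 := wd_curryLeft_cons x0 x z h
    rw [h0, one_smul] at h1
    exact h1
  · rw [wdg_eq_wd, wdg_eq_wd]
    exact wd_perm x σ

theorem tExp : S_Exp := by
  intro T κ _ b m c
  have h := wd_expand b c
  have h0 : (m.factorial : ℂ) ≠ 0 := Nat.cast_ne_zero.2 (Nat.factorial_ne_zero m)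
  have h1 : c = ((m.factorial : ℂ)⁻¹) • (m.factorial : ℂ) • c := by
    rw [smul_smul, inv_mul_cancel₀ h0, one_smul]
  conv_lhs => rw [h1, h]
  congr 1
  refine Finset.sum_congr rfl fun s _ => ?_
  rw [wdg_eq_wd]

theorem tPushH : S_PushH := by
  refine ⟨fun T T' φ hφ m c hc => IsHodge.push hφ hc, fun T T' φ ψ N h m c => ?_⟩
  rw [push_push]
  have h1 : ψ ∘ₗ φ = (((N : ℝ) : ℂ)) • LinearMap.id := by
    refine LinearMap.ext fun v => ?_
    rw [LinearMap.comp_apply, h]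
    simp
  rw [h1, push_rsmul, push_id]
  simp

end HC
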