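import Pool.Agent.Lib.HC.B.Sub

/-!
PROJECT HC, part B (helper14): wedge products of linear forms on `V →ₗ[ℝ] ℂ` as homology classes.
If `b` is a basis of `V →ₗ[ℝ] ℂ`, the dual basis `e_S` of `H_m(T, ℂ)` is
`wd (fun i => b.coord (s i))`, `s : Fin m → ι`.
-/

set_option autoImplicit false

noncomputable section

namespace HC

open Matrix

variable {T T' : AV} {m n : ℕ}

lemma hlg_sum_apply {ι : Type} (s : Finset ι) (c : ι → Hlg T m) (a : Fin m → (T.V →ₗ[ℝ] ℂ)) :
    (∑ i ∈ s, c i) a = ∑ i ∈ s, c i a := by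
  classical
  induction s using Finset.induction_on with
  | empty => simp
  | insert i s hi ih =>
    rw [Finset.sum_insert hi, Finset.sum_insert hi, AlternatingMap.add_apply, ih]

/-- The wedge product of the linear forms `f i`. -/
def wd (f : Fin m → Module.Dual ℂ (T.V →ₗ[ℝ] ℂ)) : Hlg T m :=
  (Matrix.detRowAlternating (R := ℂ) (n := Fin m)).compLinearMap (LinearMap.pi f)

lemma wd_apply' (f : Fin m → Module.Dual ℂ (T.V →ₗ[ℝ] ℂ)) (a : Fin m → (T.V →ₗ[ℝ] ℂ)) :
    wd f a = Matrix.det (Matrix.of fun j i => f i (a j)) := rfl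

lemma wd_apply (f : Fin m → Module.Dual ℂ (T.V →ₗ[ℝ] ℂ)) (a : Fin m → (T.V →ₗ[ℝ] ℂ)) :
    wd f a = Matrix.det (Matrix.of fun i j => f i (a j)) := by
  rw [wd_apply', ← Matrix.det_transpose]; rfl

/-- Evaluation of linear forms at the vectors `a j`. -/
def evA (a : Fin m → (T.V →ₗ[ℝ] ℂ)) : Module.Dual ℂ (T.V →ₗ[ℝ] ℂ) →ₗ[ℂ] (Fin m → ℂ) :=
  LinearMap.pi fun j => LinearMap.applyₗ (a j)

lemma wd_eq_evA (f : Fin m → Module.Dual ℂ (T.V →ₗ[ℝ] ℂ)) (a : Fin m → (T.V →ₗ[ℝ] ℂ)) :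
    wd f a = (Matrix.detRowAlternating (R := ℂ) (n := Fin m)).compLinearMap (evA a) f := by
  rw [wd_apply]; rfl

/-- The wedge product as an alternating map. -/
def wdA (T : AV) (m : ℕ) : (Module.Dual ℂ (T.V →ₗ[ℝ] ℂ)) [⋀^Fin m]→ₗ[ℂ] (Hlg T m) where
  toFun := wd
  map_update_add' {hd} f i x y := by
    have : hd = instDecidableEqFin m := Subsingleton.elim _ _
    subst this
    ext a
    rw [AlternatingMap.add_apply, wd_eq_evA, wd_eq_evA, wd_eq_evA, AlternatingMap.map_update_add]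
  map_update_smul' {hd} f i x y := by
    have : hd = instDecidableEqFin m := Subsingleton.elim _ _
    subst this
    ext a
    rw [AlternatingMap.smul_apply, wd_eq_evA, wd_eq_evA, AlternatingMap.map_update_smul]
  map_eq_zero_of_eq' f i j h hij := by
    ext a
    rw [wd_eq_evA, AlternatingMap.map_eq_zero_of_eq _ _ h hij]; rfl

lemma wdA_apply (f : Fin m → Module.Dual ℂ (T.V →ₗ[ℝ] ℂ)) : wdA T m f = wd f := rfl

lemma wd_zero_of_eq (f : Fin m → Module.Dual ℂ (T.V →ₗ[ℝ] ℂ)) {i j : Fin m} (h : f i = f j)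
    (hij : i ≠ j) : wd f = 0 := (wdA T m).map_eq_zero_of_eq f h hij

lemma wd_perm (f : Fin m → Module.Dual ℂ (T.V →ₗ[ℝ] ℂ)) (σ : Equiv.Perm (Fin m)) :
    wd (fun i => f (σ i)) = Equiv.Perm.sign σ • wd f := (wdA T m).map_perm f σ

lemma wd_smul (x : Fin m → ℂ) (f : Fin m → Module.Dual ℂ (T.V →ₗ[ℝ] ℂ)) :
    wd (fun i => x i • f i) = (∏ i, x i) • wd f :=
  (wdA T m).toMultilinearMap.map_smul_univ x f

/-- The image of a wedge product. -/
lemma push_wd (φ : T.V →ₗ[ℂ] T'.V) (f : Fin m → Module.Dual ℂ (T.V →ₗ[ℝ] ℂ)) :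
    push (T' := T') φ (wd f) = wd fun i => f i ∘ₗ pull φ := rfl

/-! ### The Pontryagin product -/

/-- The product of linear forms as a multilinear map. -/
def pm {ι : Type} [Fintype ι] (f : ι → Module.Dual ℂ (T.V →ₗ[ℝ] ℂ)) :
    MultilinearMap ℂ (fun _ : ι => (T.V →ₗ[ℝ] ℂ)) ℂ :=
  (MultilinearMap.mkPiAlgebra ℂ ι ℂ).compLinearMap f

lemma pm_apply {ι : Type} [Fintype ι] (f : ι → Module.Dual ℂ (T.V →ₗ[ℝ] ℂ))
    (a : ι → (T.V →ₗ[ℝ] ℂ)) : pm f a = ∏ i, f i (a i) := rfl

lemma alt_pm_apply {ι : Type} [Fintype ι] [DecidableEq ι]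
    (f : ι → Module.Dual ℂ (T.V →ₗ[ℝ] ℂ)) (a : ι → (T.V →ₗ[ℝ] ℂ)) :
    MultilinearMap.alternatization (pm f) a = Matrix.det (Matrix.of fun j i => f i (a j)) := by
  rw [MultilinearMap.alternatization_apply, Matrix.det_apply]
  rfl

lemma wd_eq_alt (f : Fin m → Module.Dual ℂ (T.V →ₗ[ℝ] ℂ)) :
    wd f = MultilinearMap.alternatization (pm f) := by
  ext a
  rw [alt_pm_apply, wd_apply']

/-- The Pontryagin product of wedge products. -/
theorem pont_wd (f : Fin m → Module.Dual ℂ (T.V →ₗ[ℝ] ℂ))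
    (g : Fin n → Module.Dual ℂ (T.V →ₗ[ℝ] ℂ)) : pont (wd f) (wd g) = wd (Fin.append f g) := by
  have h1 : (LinearMap.mul' ℂ ℂ).compAlternatingMap ((wd f).domCoprod (wd g)) =
      MultilinearMap.alternatization (pm (Sum.elim f g)) := by
    rw [wd_eq_alt, wd_eq_alt, ← MultilinearMap.domCoprod_alternization,
      ← LinearMap.compMultilinearMap_alternatization]
    congr 1
    ext a
    simp [pm_apply, MultilinearMap.domCoprod_apply]
  ext a
  rw [pont, h1, AlternatingMap.domDomCongr_apply, alt_pm_apply, wd_apply']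
  rw [← Matrix.det_submatrix_equiv_self (finSumFinEquiv (m := m) (n := n))]
  congr 1
  ext i j
  rw [Matrix.submatrix_apply, Matrix.of_apply, Matrix.of_apply]
  rcases j with j | j <;> simp

/-! ### Capping with a 1-form -/

lemma wd_curryLeft (f : Fin (m + 1) → Module.Dual ℂ (T.V →ₗ[ℝ] ℂ)) (p : T.V →ₗ[ℝ] ℂ) :
    (wd f).curryLeft p = ∑ i : Fin (m + 1), ((-1) ^ (i : ℕ) * f i p) •
      wd fun j => f (i.succAbove j) := by
  ext a
  rw [AlternatingMap.curryLeft_apply_apply, wd_apply, Matrix.det_succ_column_zero,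
    hlg_sum_apply]
  refine Finset.sum_congr rfl fun i _ => ?_
  rw [AlternatingMap.smul_apply, wd_apply, smul_eq_mul]
  congr 1

/-- If only `f 0` is nonzero at `p`. -/
lemma wd_curryLeft_cons (f0 : Module.Dual ℂ (T.V →ₗ[ℝ] ℂ))
    (f : Fin m → Module.Dual ℂ (T.V →ₗ[ℝ] ℂ)) (p : T.V →ₗ[ℝ] ℂ) (h : ∀ i, f i p = 0) :
    (wd (Matrix.vecCons f0 f)).curryLeft p = f0 p • wd f := by
  rw [wd_curryLeft, Fin.sum_univ_succ, Finset.sum_eq_zero]
  · simp
  · intro i _
    rw [Matrix.cons_val_succ, h, mul_zero, zero_smul]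

/-! ### The dual basis -/

/-- Expansion of a homology class in the dual basis. -/
theorem wd_expand {ι : Type} [Fintype ι] (b : Module.Basis ι ℂ (T.V →ₗ[ℝ] ℂ)) (c : Hlg T m) :
    (m.factorial : ℂ) • c = ∑ s : Fin m → ι, c (fun i => b (s i)) •
      wd fun i => b.coord (s i) := by
  classical
  ext a
  have key : ∀ σ : Equiv.Perm (Fin m), ∑ s : Fin m → ι,
      c (fun i => b (s i)) * ∏ i, b.coord (s i) (a (σ i)) = c fun i => a (σ i) := by
    intro σ
    have h1 : (fun i => a (σ i)) = fun i => ∑ k : ι, (b.coord k (a (σ i))) • b k := by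
      funext i; exact (b.sum_repr _).symm
    rw [h1]
    have h2 := c.toMultilinearMap.map_sum (fun (i : Fin m) (k : ι) => (b.coord k (a (σ i))) • b k)
    refine Eq.trans ?_ h2.symm
    refine Finset.sum_congr rfl fun s _ => ?_
    have h3 := c.toMultilinearMap.map_smul_univ (fun i => b.coord (s i) (a (σ i)))
      fun i => b (s i)
    rw [h3, mul_comm]; rfl
  rw [AlternatingMap.smul_apply, hlg_sum_apply]
  have h4 : ∀ s : Fin m → ι, (c (fun i => b (s i)) • wd fun i => b.coord (s i)) a =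
      ∑ σ : Equiv.Perm (Fin m), ((Equiv.Perm.sign σ : ℤ) : ℂ) *
        (c (fun i => b (s i)) * ∏ i, b.coord (s i) (a (σ i))) := by
    intro s
    rw [AlternatingMap.smul_apply, wd_apply', Matrix.det_apply', smul_eq_mul, Finset.mul_sum]
    refine Finset.sum_congr rfl fun σ _ => ?_
    simp only [Matrix.of_apply]
    ring
  rw [Finset.sum_congr rfl fun s _ => h4 s, Finset.sum_comm]
  have h5 : ∀ σ : Equiv.Perm (Fin m), ∑ s : Fin m → ι, ((Equiv.Perm.sign σ : ℤ) : ℂ) *
        (c (fun i => b (s i)) * ∏ i, b.coord (s i) (a (σ i))) = c a := by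
    intro σ
    rw [← Finset.mul_sum, key σ]
    have h6 := c.map_perm a σ
    have h7 : (c fun i => a (σ i)) = Equiv.Perm.sign σ • c a := h6
    rw [h7]
    rcases Int.units_eq_one_or (Equiv.Perm.sign σ) with h | h <;> rw [h] <;> simp
  rw [Finset.sum_congr rfl fun σ _ => h5 σ, Finset.sum_const, Finset.card_univ,
    Fintype.card_perm, Fintype.card_fin, nsmul_eq_mul, smul_eq_mul]

/-- The values of a dual basis vector. -/
lemma wd_coord_apply_self {ι : Type} (b : Module.Basis ι ℂ (T.V →ₗ[ℝ] ℂ)) {s : Fin m → ι}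
    (hs : Function.Injective s) :
    wd (fun i => b.coord (s i)) (fun i => b (s i)) = 1 := by
  classical
  rw [wd_apply]
  have : (Matrix.of fun i j => b.coord (s i) (b (s j))) = (1 : Matrix (Fin m) (Fin m) ℂ) := by
    ext i j
    rw [Matrix.of_apply, Module.Basis.coord_apply, Module.Basis.repr_self,
      Finsupp.single_apply, Matrix.one_apply]
    by_cases h : i = j
    · simp [h]
    · rw [if_neg h, if_neg fun h' => h (hs h').symm]
  rw [this, Matrix.det_one]

lemma wd_coord_apply_of_notMem {ι : Type} (b : Module.Basis ι ℂ (T.V →ₗ[ℝ] ℂ)) (s t : Fin m → ι)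
    {i : Fin m} (hi : ∀ j, t j ≠ s i) :
    wd (fun i => b.coord (s i)) (fun i => b (t i)) = 0 := by
  classical
  rw [wd_apply]
  refine Matrix.det_eq_zero_of_row_eq_zero i fun j => ?_
  rw [Matrix.of_apply, Module.Basis.coord_apply, Module.Basis.repr_self,
    Finsupp.single_apply, if_neg (hi j)]

end HC
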